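import Pool.Agent.H288Z.Erd.Main

set_option autoImplicit false

namespace Pool.Agent.Results.MP_54b62b_gt.NotLie

open Filter Topology Pool.Agent.H288Z.Erd

/-- There is a locally minimal, sequentially complete (indeed completely metrizable) Hausdorff
abelian group all of whose closed zero-dimensional subgroups are finite, which is neither locally
compact nor locally Euclidean, hence not a Lie group. -/
theorem result : ∃ (G : Type) (_ : AddCommGroup G) (t : TopologicalSpace G),
    IsTopologicalAddGroup G ∧ T2Space G ∧ TopologicalSpace.MetrizableSpace G ∧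
    (∃ V ∈ 𝓝 (0 : G), ∀ τ : TopologicalSpace G, @IsTopologicalAddGroup G τ _ → @T2Space G τ →
      t ≤ τ → V ∈ @nhds G τ 0 → τ = t) ∧
    (∀ u : ℕ → G, (∀ U ∈ 𝓝 (0 : G), ∃ N, ∀ m ≥ N, ∀ n ≥ N, u m - u n ∈ U) →
      ∃ x, Tendsto u atTop (𝓝 x)) ∧
    (∀ H : AddSubgroup G, IsClosed (H : Set G) →
      TopologicalSpace.IsTopologicalBasis {s : Set H | IsClopen s} → Finite H) ∧
    ¬ LocallyCompactSpace G ∧
    ¬ (∀ x : G, ∃ (n : ℕ) (e : OpenPartialHomeomorph G (EuclideanSpace ℝ (Fin n))),
      x ∈ e.source) := by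
  have : ∀ k, CompleteSpace (F k) := fun k => complete_of_compact
  refine ⟨lp F 1, inferInstance, inferInstance, inferInstance, inferInstance, inferInstance,
    ⟨Metric.ball 0 1, Metric.ball_mem_nhds _ one_pos, eq_of_filter _ le_nhds_of_filter⟩,
    fun u hu => cauchySeq_tendsto_of_complete (Metric.cauchySeq_iff.mpr fun ε hε => ?_),
    finite_of_zeroDim, fun h => ?_, fun h => ?_⟩
  · obtain ⟨N, hN⟩ := hu _ (Metric.ball_mem_nhds _ hε)
    exact ⟨N, fun m hm n hn => by
      rw [dist_eq_norm]
      exact mem_ball_zero_iff.mp (hN m hm n hn)⟩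
  · obtain ⟨K, hK, h0⟩ := exists_compact_mem_nhds (0 : lp F 1)
    exact not_compact hK h0
  · obtain ⟨n, e, he⟩ := h 0
    obtain ⟨K, hK1, hK2, hK3⟩ := local_compact_nhds (e.open_target.mem_nhds (e.map_source he))
    refine not_compact (hK3.image_of_continuousOn (e.continuousOn_symm.mono hK2)) ?_
    have h1 := e.symm.image_mem_nhds (e.map_source he) hK1
    rwa [e.left_inv he] at h1

end Pool.Agent.Results.MP_54b62b_gt.NotLie
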